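import Mathlib
import Pool.Agent.V7H82.SA.Main
import Pool.Agent.Results.MP_6369ef_ag.OnePrimeDecidesH82

/-!
# The algebraic Sato-Tate conjecture for `H²`, from one prime number or from two Frobenius polynomials

Let `X` be a smooth projective variety over a field `k` which is finitely generated over `ℚ` and
`M = h²(X)(1) = N ⊕ T`, a polarised pure motive of weight zero, `N` the algebraic classes (`ℚ^κ`, on
which the Galois group acts by rational matrices, with finite image) and `T = T_1 ⊕ ... ⊕ T_r` the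
transcendental part, the `T_i` not isomorphic, with the Hodge numbers `(p_i, q_i, p_i)` and without
endomorphisms besides the rational scalars, of rank `5`, `7` or at least `8`, with `p_i = 1` or
`2 p_i² (p_i² + 1) < (q_i - 2 p_i) (q_i + p_i)`. The Galois group acts on the determinant of `T_i` by a
character `ε_i` with the values `1` and `-1`, the same for all `ℓ`. (The determinant of `T_i` is a motive
of rank one and weight zero.) The weight is zero, so the group `G_{1,ℓ,k}(M)` is the Zariski closure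
`G_{ℓ,k}(M)` of the image of the Galois group.

**The algebraic Sato-Tate group** is `AST = {(α(σ), t) : t ∈ O(T_1) × ... × O(T_r), det t_i = ε_i(σ)}`,
the union over all `σ` in the Galois group. It is defined over `ℚ` (part 1 of the theorem gives the
equations) and reductive, its identity component is `SO(T_1) × ... × SO(T_r)`.

**Theorem.** Let `ℓ₀` be one prime number as in `MP_6369ef_ag.OnePrimeDecidesH82`: the Mumford-Tate
conjecture holds at `ℓ₀`, or there are good places (explicit conditions on two Frobenius polynomials of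
each `T_i`, and independent eigenvalues if `r > 1`). Then
1. `AST` is defined by polynomials over `ℚ`.
2. `G_{1,ℓ,k}(M) = AST_{ℚ_ℓ}` for all `ℓ` outside of a set of natural density zero.
3. `G_{1,ℓ,k}(M) = AST_{ℚ_ℓ}` for every `ℓ` such that the `T_{i,ℓ}` are semisimple and their
   endomorphisms over finite extensions are scalars.
So there is one `ℚ`-group for all these `ℓ`, with all components.

The proof: the identity component is determined in `MP_6369ef_ag.OnePrimeDecidesH82` (the Mumford-Tate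
group is `SO(T_1) × ... × SO(T_r)`). New here are the components.
-/

set_option autoImplicit false

namespace Pool.Agent.Results.MP_92d903_ag.OnePrimeSatoTateH82

open MvPolynomial Matrix Filter Topology NumberField IsDedekindDomain
open Pool.Agent.W544.PG (HS)
open Pool.Agent.Results.MP_6369ef_ag.OnePrimeDecidesH82 (value MumfordTateConjecture hodge rat galois
  IsBlockDiagonal block AbsoluteGaloisGroup IsSystem IsSemisimple HasScalarCommutants HasGoodPlaces
  HasIndependentRoot HasDensityZero)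

noncomputable section

variable {n r : ℕ}

/-- The points over `R` of the algebraic Sato-Tate group: the matrices which are `α(σ)` on `N` and `t` on
`T`, where `t` preserves the form `Q` and the `T_i`, and has the determinants `ε_i(σ)` on the `T_i`, for
some `σ`. -/
def satoTate {κ : Type} [Fintype κ] [DecidableEq κ] {Γ : Type} [Group Γ] (c : Fin n → Fin r)
    (Q : Matrix (Fin n) (Fin n) ℚ) (α : Γ →* Matrix κ κ ℚ) (ε : Fin r → Γ →* ℤˣ) (R : Type) [Field R]
    [Algebra ℚ R] : Set (Matrix (κ ⊕ Fin n) (κ ⊕ Fin n) R) :=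
  {g | ∃ (σ : Γ) (t : Matrix (Fin n) (Fin n) R),
    g = fromBlocks ((α σ).map (algebraMap ℚ R)) 0 0 t ∧
    tᵀ * Q.map (algebraMap ℚ R) * t = Q.map (algebraMap ℚ R) ∧ IsBlockDiagonal c t ∧
    ∀ i, (block c i t).det = ((ε i σ : ℤ) : R)}

/-- The sets `G R` of matrices over the fields `R` of characteristic zero are defined by polynomials
with rational coefficients. -/
def IsDefinedOverQ {ι : Type} [Fintype ι] [DecidableEq ι]
    (G : ∀ (R : Type) [Field R] [Algebra ℚ R], Set (Matrix ι ι R)) : Prop :=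
  ∃ P : Set (MvPolynomial (ι × ι) ℚ), ∀ (R : Type) [Field R] [Algebra ℚ R] (g : Matrix ι ι R),
    g ∈ G R ↔ ∀ f ∈ P, value g f = 0

/-- The points of the Zariski closure of `ρ(Γ)` over the algebraic closure of `ℚ_ℓ`. -/
def InZariskiClosure {ι : Type} [Fintype ι] [DecidableEq ι] {ℓ : ℕ} [Fact ℓ.Prime] {Γ : Type}
    [Group Γ] (ρ : Γ →* Matrix ι ι ℚ_[ℓ]) (g : Matrix ι ι (AlgebraicClosure ℚ_[ℓ])) : Prop :=
  ∀ f : MvPolynomial (ι × ι) (AlgebraicClosure ℚ_[ℓ]),
    (∀ σ : Γ, aeval (fun q : ι × ι =>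
      algebraMap ℚ_[ℓ] (AlgebraicClosure ℚ_[ℓ]) (ρ σ q.1 q.2)) f = 0) →
    aeval (fun q : ι × ι => g q.1 q.2) f = 0

/-- The rational representation `α` over the field `ℚ_ℓ`. -/
def extend {κ : Type} [Fintype κ] [DecidableEq κ] {Γ : Type} [Group Γ] (ℓ : ℕ) [Fact ℓ.Prime]
    (α : Γ →* Matrix κ κ ℚ) : Γ →* Matrix κ κ ℚ_[ℓ] :=
  (algebraMap ℚ ℚ_[ℓ]).mapMatrix.toMonoidHom.comp α

/-- The algebraic Sato-Tate conjecture at `ℓ`: the Zariski closure of the image of the Galois group on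
`N ⊕ T` is the group `satoTate`. -/
def AlgebraicSatoTate {κ : Type} [Fintype κ] [DecidableEq κ] {Γ : Type} [Group Γ]
    (c : Fin n → Fin r) (Q : Matrix (Fin n) (Fin n) ℚ) (α : Γ →* Matrix κ κ ℚ)
    (ε : Fin r → Γ →* ℤˣ) (ℓ : ℕ) [Fact ℓ.Prime] (β : Γ →* Matrix (Fin n) (Fin n) ℤ_[ℓ]) : Prop :=
  ∀ g : Matrix (κ ⊕ Fin n) (κ ⊕ Fin n) (AlgebraicClosure ℚ_[ℓ]),
    InZariskiClosure (galois (extend ℓ α) β) g ↔ g ∈ satoTate c Q α ε (AlgebraicClosure ℚ_[ℓ])

lemma density_mono {A B : Set ℕ} (h : A ⊆ B) (hB : HasDensityZero B) : HasDensityZero A := by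
  unfold HasDensityZero at hB ⊢
  refine squeeze_zero (fun m => by positivity) (fun m => ?_) hB
  refine div_le_div_of_nonneg_right ?_ (Nat.cast_nonneg _)
  have hfin : Finite {ℓ : ℕ // ℓ ≤ m ∧ ℓ ∈ B} :=
    Set.Finite.subset (Set.finite_Iic m) fun x hx => hx.1
  exact_mod_cast Nat.card_le_card_of_injective
    (fun x : {ℓ : ℕ // ℓ ≤ m ∧ ℓ ∈ A} => (⟨x.1, x.2.1, h x.2.2⟩ : {ℓ : ℕ // ℓ ≤ m ∧ ℓ ∈ B}))
    fun x y hxy => Subtype.ext (by simpa using hxy)

/-- **The algebraic Sato-Tate conjecture for `H²(X)(1) = N ⊕ T_1 ⊕ ... ⊕ T_r`.** -/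
theorem result (T : HS n) (c : Fin n → Fin r)
    -- the Hodge structure
    (hQ : IsBlockDiagonal c T.Q) (hx : IsBlockDiagonal c T.x)
    (hEnd : ∀ A : Matrix (Fin n) (Fin n) ℚ,
      A.map (fun a : ℚ => (a : ℂ)) * T.x = T.x * A.map (fun a : ℚ => (a : ℂ)) →
      ∃ d : Fin r → ℚ, A = Matrix.diagonal fun a => d (c a))
    (p q rk : Fin r → ℕ) (htr : ∀ i, ∑ a with c a = i, (T.x * T.x) a a = 2 * (p i : ℂ))
    (hrk : ∀ i, rk i = 2 * p i + q i) (hcard : ∀ i, Nat.card {a // c a = i} = rk i)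
    (hrk' : ∀ i, rk i = 5 ∨ rk i = 7 ∨ 8 ≤ rk i)
    (hpq : ∀ i, (p i = 1 ∧ 0 < q i) ∨
      (0 < p i ∧ 2 * p i ^ 2 * (p i ^ 2 + 1) < (q i - 2 * p i) * (q i + p i)))
    -- the Galois group
    (K : Type) [Field K] [NumberField K] (Γ : Type) [Group Γ] [TopologicalSpace Γ]
    [IsTopologicalGroup Γ] [CompactSpace Γ] (s : AbsoluteGaloisGroup K →* Γ) (hs : Continuous s)
    (S : Set (HeightOneSpectrum (𝓞 K))) (hS : S.Finite)
    (P : Fin r → HeightOneSpectrum (𝓞 K) → Polynomial ℚ)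
    (κ : Type) [Fintype κ] [DecidableEq κ] (α : Γ →* Matrix κ κ ℚ) (ε : Fin r → Γ →* ℤˣ)
    (β : ∀ (ℓ : ℕ) [Fact ℓ.Prime], Γ →* Matrix (Fin n) (Fin n) ℤ_[ℓ])
    (hα : (Set.range α).Finite)
    (hsys : ∀ (ℓ : ℕ) [Fact ℓ.Prime], IsSystem s T c S P ℓ (extend ℓ α) (β ℓ))
    (hdet : ∀ (ℓ : ℕ) [Fact ℓ.Prime], ∀ i σ,
      (block c i (rat (β ℓ σ))).det = ((ε i σ : ℤ) : ℚ_[ℓ]))
    -- one prime number
    (ℓ₀ : ℕ) [Fact ℓ₀.Prime]
    (hodd : ∀ i, Odd (rk i) → ¬ ℓ₀ ∣ rk i - 1)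
    (heven : ∀ i, Even (rk i) → ¬ ℓ₀ ∣ (rk i - 2) * (rk i - 4) ∧
      Even (padicValRat ℓ₀ (block c i T.Q).det))
    (hone : MumfordTateConjecture (hodge κ T) ((galois (extend ℓ₀ α) (β ℓ₀)).comp s) ∨
      ((∀ i, HasGoodPlaces S (P i) ℓ₀) ∧ (1 < r → ∀ i, ∃ w ∉ S, (ℓ₀ : 𝓞 K) ∉ w.asIdeal ∧
        HasIndependentRoot (P i w) (∏ j ∈ Finset.univ.erase i, P j w)))) :
    IsDefinedOverQ (satoTate c T.Q α ε) ∧
    HasDensityZero {ℓ | ∃ _ : Fact ℓ.Prime, ¬ AlgebraicSatoTate c T.Q α ε ℓ (β ℓ)} ∧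
    ∀ (ℓ : ℕ) [Fact ℓ.Prime], (∀ i, IsSemisimple c i (β ℓ) ∧ HasScalarCommutants c i (β ℓ)) →
      AlgebraicSatoTate c T.Q α ε ℓ (β ℓ) := by
  classical
  have hmain := Pool.Agent.Results.MP_6369ef_ag.OnePrimeDecidesH82.result T c hQ hx hEnd p q rk htr
    hrk hcard hrk' hpq K Γ s hs S hS P κ (fun ℓ _ => extend ℓ α) β hsys ℓ₀ hodd heven hone
  have hB : T.Big c p q := by
    refine ⟨hQ, hx, fun A hA => hEnd A hA, htr, fun i => ?_, fun i => ?_⟩
    · rw [← hrk i, ← hcard i, Nat.card_eq_fintype_card, Fintype.card_subtype]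
    · rcases hpq i with ⟨h1, h2⟩ | h1
      · refine Or.inl ⟨h1, h2, ?_⟩
        intro h3
        have h4 := hrk i
        have h5 := hrk' i
        omega
      · exact Or.inr h1
  have hast : ∀ (ℓ : ℕ) [Fact ℓ.Prime],
      MumfordTateConjecture (hodge κ T) (galois (extend ℓ α) (β ℓ)) →
        AlgebraicSatoTate c T.Q α ε ℓ (β ℓ) := by
    intro ℓ _ hm g
    have hg : Pool.Agent.Y95.MT.GalT c T.Q (β ℓ) := ⟨(hsys ℓ).2.2.2.2.1, (hsys ℓ).2.2.2.1⟩
    exact Pool.Agent.V7H82.SA.closure_iff (p := p) (q := q) hB hg α hα ε (hdet ℓ) hm g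
  refine ⟨?_, density_mono ?_ hmain.1, fun ℓ _ h => hast ℓ ((hmain.2 ℓ).2 h)⟩
  · obtain ⟨P', hP'⟩ := Pool.Agent.V7H82.SA.exists_eqn c T.Q α hα ε
    exact ⟨P', fun R _ _ g => hP' R g⟩
  · rintro ℓ ⟨hℓ, h⟩
    exact ⟨hℓ, fun h1 => h (hast ℓ h1)⟩

end

end Pool.Agent.Results.MP_92d903_ag.OnePrimeSatoTateH82
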